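import Pool.Agent.X156.SD.Hmf

/-!
# The parity conjecture for base changes of Hilbert modular newforms

Let `g` be a Hilbert modular newform over the totally real field `K` with trivial central character
and even weights, `V = V_{g,λ}`, `F/K` a finite Galois extension with group `G` (totally real, if
one wants `V` over the intermediate fields to come from Hilbert modular forms), `S` a set of places
of `K` which contains those dividing the level. The form enters by its Hecke eigenvalues `t_v`,
`v ∉ S`, with the roots `α_v, β_v` of `X² - t_v X + q_v`.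

Hypothesis on `L`-functions: for every complex representation `τ` of `G`, the `L`-function
`L_S(g ⊗ τ, s) = exp ∑ (α_v^k + β_v^k) τ(v^k) q_v^{-ks} / k` (centre `s = 1`) has a meromorphic
continuation to `Re s > ρ` for a fixed `ρ < 1`. For nilpotent `G` this is known by base change.

Selmer groups: `R` is a self-dual representation of `G` over a field of characteristic zero, meant
is `R = H¹_f(F, V)`, for which `R^H = H¹_f(F^H, V)`, and which is self-dual by the formula of
Greenberg and Wiles. Let `o(H)` be the order at the centre of `L_S(g ⊗ π_H, s)`, `π_H` the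
permutation character of `G/H`; this is the order of `L(V, s)` over `F^H`. Let
`sel(H) = dim R^H`.

1. There is a self-dual complex representation `U` of `G` with `o(H) ≡ dim U^H (mod 2)`.
2. If `H ≤ G` has a normal subgroup of odd order and index `2^(n+1)`, then `o(1) ≡ ∑ o(J)` and
   `sel(1) ≡ ∑ sel(J) (mod 2)`, `J` the subgroups of index two of `H`. So the parity statement
   `o ≡ sel` over all the `F^J` gives the parity statement over `F`.
3. The case of a Sylow `2`-subgroup `H`, for all `F/K` of even degree.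
4. If `z ∈ G` has order two and is a product of squares, then `o(1) ≡ o(⟨z⟩)`,
   `sel(1) ≡ sel(⟨z⟩)`.

The known cases of the parity statement over `K` need that `p` splits completely in `K`; the
statement over `F` obtained from them needs nothing on `p` in `F`.
-/

set_option autoImplicit false

open IsDedekindDomain NumberField Module

namespace Pool.Agent.Results.MP_d4aa36_nt.ParityForBaseChanges

open Pool.Agent.X298.ST Pool.Agent.X298.EC Pool.Agent.X156.SD

theorem result {K F : Type} [Field K] [NumberField K] [Field F] [NumberField F] [Algebra K F]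
    [IsGalois K F] (S : Set (HeightOneSpectrum (𝓞 K))) (P : Places S → Ideal (𝓞 F))
    (_hP : IsAbove P) (t : Places S → ℝ) (α β : Places S → ℂ) (hg : IsNewform t α β)
    (ρ : ℝ) (hρ : ρ < 1)
    (hΛ : ∀ (n : ℕ) (τ : (F ≃ₐ[K] F) →* Matrix (Fin n) (Fin n) ℂ),
      ∃ Λ, Continues P (tr α β) 1 ρ (fun g => (τ g).trace) Λ)
    {E : Type} [Field E] [CharZero E] {R : Type} [AddCommGroup R] [Module E R]
    [FiniteDimensional E R] (r : (F ≃ₐ[K] F) →* (R →ₗ[E] R)) (hr : SelfDual r) :
    ∃ o : Subgroup (F ≃ₐ[K] F) → ℤ,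
      (∀ H : Subgroup (F ≃ₐ[K] F), (∃ Λ, Continues P (tr α β) 1 ρ (perm H) Λ) ∧
        ∀ Λ, Continues P (tr α β) 1 ρ (perm H) Λ → meromorphicOrderAt Λ 1 = (o H : WithTop ℤ)) ∧
      -- 1
      (∃ (U : Type) (_ : AddCommGroup U) (_ : Module ℂ U) (_ : FiniteDimensional ℂ U)
        (σ : (F ≃ₐ[K] F) →* (U →ₗ[ℂ] U)), SelfDual σ ∧
        ∀ H : Subgroup (F ≃ₐ[K] F), Even (o H - finrank ℂ (fixS σ H))) ∧
      -- 2
      (∀ H N : Subgroup (F ≃ₐ[K] F), N ≤ H → (N.subgroupOf H).Normal → Odd (Nat.card N) →
        ∀ n : ℕ, N.relIndex H = 2 ^ (n + 1) →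
          Even (o ⊥ - ∑ J ∈ halves H, o J) ∧
          Even ((sel r ⊥ : ℤ) - ∑ J ∈ halves H, (sel r J : ℤ)) ∧
          ((∀ J ∈ halves H, Even (o J - sel r J)) → Even (o ⊥ - sel r ⊥))) ∧
      -- 3
      (Even (finrank K F) → ∀ Q : Sylow 2 (F ≃ₐ[K] F),
        (∀ J ∈ halves (Q : Subgroup (F ≃ₐ[K] F)), Even (o J - sel r J)) →
          Even (o ⊥ - sel r ⊥)) ∧
      -- 4
      (∀ z : F ≃ₐ[K] F, z * z = 1 →
        z ∈ Subgroup.closure (Set.range fun g : F ≃ₐ[K] F => g ^ 2) →
          Even (o ⊥ - o (Subgroup.zpowers z)) ∧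
          Even ((sel r ⊥ : ℤ) - sel r (Subgroup.zpowers z))) := by
  have hfd : FiniteDimensional K F := Module.Finite.of_restrictScalars_finite ℚ K F
  obtain ⟨V, i1, i2, i3, σ, o, hσ, h⟩ := exists_order_gen hρ hg.pure hg.real hΛ
  obtain ⟨h1, h2⟩ := parity_pair o hσ (fun H => (h H).2.2) hr
  refine ⟨o, fun H => ⟨(h H).1, fun Λ hL => ?_⟩, ⟨V, i1, i2, i3, σ, hσ, fun H => ?_⟩, h1, ?_, h2⟩
  · have h3 := (h H).2.1 Λ hL
    rwa [Complex.ofReal_one] at h3
  · apply even_of_cast
    rw [Int.cast_sub, (h H).2.2, Int.cast_natCast, sub_self]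
  · intro he Q
    obtain ⟨n, hn⟩ := sylow_halves he Q
    have hb : ((⊥ : Subgroup (F ≃ₐ[K] F)).subgroupOf (Q : Subgroup (F ≃ₐ[K] F))).Normal := by
      rw [Subgroup.bot_subgroupOf]
      infer_instance
    exact (h1 Q ⊥ bot_le hb (by rw [Subgroup.card_bot]; exact odd_one) n hn).2.2

end Pool.Agent.Results.MP_d4aa36_nt.ParityForBaseChanges
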