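import Mathlib
import Pool.Agent.X298.PA.HMMain

/-!
# The parity conjecture for Hilbert modular forms of squarefree level: the sign from the good Hecke eigenvalues

Let `F` be a totally real field, `f` a cuspidal Hilbert modular newform over `F` of squarefree level `𝔫`, even weights
`k_v ≥ 2` and trivial central character, with Hecke eigenvalues `t_v` (`v ∤ 𝔫`), `X² - t_v X + q_v = (X - α_v)(X - β_v)`, and
with the Steinberg signs `e_v = ± 1` at `v | 𝔫`. For real `γ > π / 2` and `T > 0` consider the absolutely convergent real series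
over the places `v ∤ 𝔫`

  `R_γ(T) = ∑_{v ∤ 𝔫} ∑_{k ≥ 1} (α_v^k + β_v^k) cos(γ k log q_v / T) / (k Γ(1 + k log q_v / T))`.

Put `M = #{v | ∞ : k_v = 2} + #{v | 𝔫 : e_v = 1}` and `H = ∑_{k_v > 2} k_v / 2`. It is shown:

* `R_γ(T) = r - M (log T - Re Λ(γ)) + O(1/T)` for a real `r`; so `(R_γ(2T) - R_γ(T)) / log 2 = - M + O(1/T)`;
* the sign of the functional equation is `ε(f) = (-1)^(M + H)`;
* for every integer `h ≥ 0`, for instance `h = dim H^1_f(F, V_{f,λ})`: `h` and the order of `L(f, s)` at the centre have the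
  same parity **if and only if** `cos (π ((R_γ(2T) - R_γ(T)) / log 2 + h + H)) → 1` for `T → ∞`, and **if and only if** it is
  positive for arbitrarily large `T`. So the parity conjecture for `(f, λ)` is a statement on the Hecke eigenvalues `t_v` at the
  places `v ∤ 𝔫`; neither the central point nor the level enters.

All the hypotheses are known theorems for such `f` (entire completed `L`-function, functional equation with the product of the
local signs `(-1)^{k_v/2}`, `- e_v`, and `|α_v| = |β_v| = √q_v`). There is no hypothesis on zeros.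

Proof: `M` is the order of the incomplete `L`-function `L_𝔫(f, s)` at the edge point `s = 0` (in the normalisation with the
centre `s = 1`; `s = -1` in the normalisation of the question): one for each infinite place of weight 2 (the pole of
`Γ(s + k_v/2 - 1)`) and one for each split Steinberg place. The rotated law of `Pool.Agent.X298.ST` holds at this point.
-/

set_option autoImplicit false

open Filter Topology Complex
open IsDedekindDomain NumberField

namespace Pool.Agent.Results.MP_d4aa36_nt.SignFromGoodHeckeEigenvalues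

open Pool.Agent.X298.ST (Lambda)
open Pool.Agent.X298.PA Pool.Agent.X298.PA.HM

/-- **The parity conjecture for Hilbert modular forms of squarefree level from the good Hecke eigenvalues.** -/
theorem result {F : Type} [Field F] [NumberField F] [IsTotallyReal F] (S : Finset (HeightOneSpectrum (𝓞 F)))
    (f : Form S) (Λ : ℂ → ℂ) (h : Completed f Λ) (γ : ℝ) (hγ : Real.pi / 2 < γ) :
    (∀ T : ℝ, 0 < T → Summable fun x => |rTerm f γ T x|) ∧
    (∃ r : ℝ, (fun T : ℝ => rSum f γ T - (r - MM f * (Real.log T - (Lambda γ).re))) =O[atTop] (fun T : ℝ => 1 / T)) ∧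
    ((fun T : ℝ => (rSum f γ (2 * T) - rSum f γ T) / Real.log 2 + MM f) =O[atTop] (fun T : ℝ => 1 / T)) ∧
    rootNumber f = (-1) ^ (MM f + HH f) ∧
    ∀ d : ℕ,
      Tendsto (fun T : ℝ => Real.cos (Real.pi * ((rSum f γ (2 * T) - rSum f γ T) / Real.log 2 + (d + HH f)))) atTop
        (𝓝 ((-1) ^ (d + analyticOrderNatAt Λ 1))) ∧
      ((Even d ↔ Even (analyticOrderNatAt Λ 1)) ↔
        Tendsto (fun T : ℝ => Real.cos (Real.pi * ((rSum f γ (2 * T) - rSum f γ T) / Real.log 2 + (d + HH f)))) atTop
          (𝓝 1)) ∧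
      ((Even d ↔ Even (analyticOrderNatAt Λ 1)) ↔
        ∃ᶠ T : ℝ in atTop,
          0 < Real.cos (Real.pi * ((rSum f γ (2 * T) - rSum f γ T) / Real.log 2 + (d + HH f)))) := by
  obtain ⟨⟨D, hD1, hD2, hD3⟩, hpar⟩ := main h
  obtain ⟨r, -, hr⟩ := RR.law_real (pure f) hD1 hD2 hD3 hγ
  have hr' : (fun T : ℝ => rSum f γ T - (r - ((MM f : ℕ) : ℤ) * (Real.log T - (Lambda γ).re))) =O[atTop]
      (fun T : ℝ => 1 / T) := hr
  have hdb := doubling hr'
  have hroot := root_eq f
  refine ⟨fun T hT => RR.tP_summable (pure f) γ hT, ⟨r, by simpa using hr'⟩, by simpa using hdb, hroot, fun d => ?_⟩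
  set o := analyticOrderNatAt Λ 1 with ho
  have hlim : Tendsto (fun T : ℝ => Real.cos (Real.pi * ((rSum f γ (2 * T) - rSum f γ T) / Real.log 2 +
        (d + HH f)))) atTop (𝓝 ((-1) ^ (d + o))) := by
    have h1 := cos_lim hdb ((d + HH f : ℕ) : ℤ)
    have e1 : ((-1 : ℝ) ^ (((MM f : ℕ) : ℤ) + ((d + HH f : ℕ) : ℤ))) = (-1) ^ (d + o) := by
      rw [← Nat.cast_add, zpow_natCast]
      have h2 : MM f + (d + HH f) = d + (MM f + HH f) := by ring
      rw [h2, pow_add, pow_add (-1 : ℝ) d o]
      congr 1
      have h3 : ((-1 : ℤ) ^ (MM f + HH f)) = (-1) ^ o := by rw [← hroot, hpar]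
      exact_mod_cast h3
    rw [e1] at h1
    refine h1.congr fun T => ?_
    push_cast
    rfl
  have hev : (Even d ↔ Even o) ↔ Even (d + o) := Nat.even_add.symm
  rw [hev]
  refine ⟨hlim, ⟨fun h1 => ?_, fun h1 => ?_⟩, ⟨fun h1 => ?_, fun h1 => ?_⟩⟩
  · rw [h1.neg_one_pow] at hlim
    exact hlim
  · by_contra h2
    rw [Nat.not_even_iff_odd] at h2
    rw [h2.neg_one_pow] at hlim
    have := tendsto_nhds_unique hlim h1
    norm_num at this
  · rw [h1.neg_one_pow] at hlim
    exact (hlim.eventually (eventually_gt_nhds (by norm_num : (0 : ℝ) < 1))).frequently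
  · by_contra h2
    rw [Nat.not_even_iff_odd] at h2
    rw [h2.neg_one_pow] at hlim
    have h3 := hlim.eventually (eventually_lt_nhds (by norm_num : (-1 : ℝ) < 0))
    obtain ⟨T, h4, h5⟩ := (h1.and_eventually h3).exists
    linarith

end Pool.Agent.Results.MP_d4aa36_nt.SignFromGoodHeckeEigenvalues
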